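import Pool.Agent.Q88.PropS.Main

set_option autoImplicit false

open Q88.PropS
open scoped ZeroAtInfty BoundedContinuousFunction

namespace Pool.Agent.Results.MP_c793c5_an.UniformPropertySofCzero

/-- The unit vectors of `c₀`. -/
def unitVec (i : ℕ) : C₀(ℕ, ℝ) where
  toFun := Pi.single i 1
  continuous_toFun := continuous_of_discreteTopology
  zero_at_infty' := by
    rw [Filter.cocompact_eq_cofinite]
    refine tendsto_const_nhds.congr' ?_
    have h : ∀ᶠ g in Filter.cofinite, g ∉ ({i} : Set ℕ) := (Set.finite_singleton i).compl_mem_cofinite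
    filter_upwards [h] with g hg
    rw [Pi.single_eq_of_ne hg]

/-- Coordinates of an element of `c₀`. -/
def coordC : C₀(ℕ, ℝ) →ₗ[ℝ] (ℕ → ℝ) where
  toFun x := x
  map_add' _ _ := rfl
  map_smul' _ _ := rfl

/-- Coordinates of a bounded sequence. -/
def coordB : (ℕ →ᵇ ℝ) →ₗ[ℝ] (ℕ → ℝ) where
  toFun x := x
  map_add' _ _ := rfl
  map_smul' _ _ := rfl

/-- **The space `c₀` has an equivalent norm with uniform property (S)**; so does `ℓ_∞`. Here
`C₀(ℕ, ℝ)` is the space of real null sequences with the supremum norm and `ℕ →ᵇ ℝ` is the space of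
bounded real sequences with the supremum norm. -/
theorem result :
    (∃ p : Seminorm ℝ C₀(ℕ, ℝ), IsEquivalentNorm p ∧ UniformPropertyS p) ∧
      (∃ p : Seminorm ℝ (ℕ →ᵇ ℝ), IsEquivalentNorm p ∧ UniformPropertyS p) := by
  constructor
  · refine main coordC (fun x i => ?_) (fun x c hc h => ?_) (fun i => ⟨unitVec i, rfl⟩)
    · have := x.toBCF.norm_coe_le_norm i
      rwa [ZeroAtInftyContinuousMap.norm_toBCF_eq_norm] at this
    · rw [← ZeroAtInftyContinuousMap.norm_toBCF_eq_norm]
      exact (BoundedContinuousFunction.norm_le hc).2 h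
  · refine main coordB (fun x i => x.norm_coe_le_norm i)
      (fun x c hc h => (BoundedContinuousFunction.norm_le hc).2 h) (fun i => ⟨(unitVec i).toBCF, rfl⟩)

end Pool.Agent.Results.MP_c793c5_an.UniformPropertySofCzero
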